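import Mathlib
import Pool.Agent.MP_30e119_nt.Rate.Main

set_option autoImplicit false

namespace Pool.Agent.Results.MP_30e119_nt.Rate

/-- The number of Markov triples up to `n`, with an error term `O(ln n / (ln ln n) ^ (1/4))`. -/
theorem result :
  ∀ g : ℝ → ℝ, (g = fun x : ℝ => Real.log ((3 * x + Real.sqrt (9 * x ^ 2 - 4)) / 2)) →
  ∀ N : ℝ → ℝ, (∀ n : ℝ, N n =
      (((Finset.Icc 1 ⌊n⌋₊ ×ˢ Finset.Icc 1 ⌊n⌋₊ ×ˢ Finset.Icc 1 ⌊n⌋₊).filter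
        (fun t : ℕ × ℕ × ℕ => t.1 ≤ t.2.1 ∧ t.2.1 ≤ t.2.2 ∧
          t.1 ^ 2 + t.2.1 ^ 2 + t.2.2 ^ 2 = 3 * t.1 * t.2.1 * t.2.2)).card : ℝ)) →
  ∃ S : ℝ, HasSum (fun t : {t : ℕ × ℕ × ℕ // 0 < t.1 ∧ t.1 < t.2.1 ∧ t.2.1 < t.2.2 ∧
          t.1 ^ 2 + t.2.1 ^ 2 + t.2.2 ^ 2 = 3 * t.1 * t.2.1 * t.2.2} =>
        (g (t.1.1 : ℝ) + g (t.1.2.1 : ℝ) - g (t.1.2.2 : ℝ)) /
          (g (t.1.1 : ℝ) * g (t.1.2.1 : ℝ) * g (t.1.2.2 : ℝ))) S ∧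
    ∃ D n₀ : ℝ, ∀ n : ℝ, n₀ ≤ n →
      |N n - 3 / Real.pi ^ 2 * (1 / (g 1 * g 2) + S) * (Real.log (3 * n)) ^ 2| ≤
        D * (Real.log n / Real.log (Real.log n) ^ (1 / 4 : ℝ)) := by
  intro g hg N hN
  have hg' : g = Pool.Agent.MP_30e119_nt.gg := hg
  subst hg'
  refine ⟨_, Pool.Agent.MP_30e119_nt.summable_term.hasSum, ?_⟩
  rw [← Pool.Agent.MP_30e119_nt.CC_eq]
  exact Pool.Agent.MP_30e119_nt.Rate.main N hN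

end Pool.Agent.Results.MP_30e119_nt.Rate
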